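import Pool.Agent.H494R3.NK.Final
import Pool.Agent.Y78.NK.Main

set_option autoImplicit false

/-!
# Nonstable K-theory of regular rings and of C*-algebras of real rank zero: neither class contains
the other

The second half is new. Let `I` be a set of cardinality `ℵ₂` and `P` a continuous map of the Cantor
space `T` onto the set consisting of `0` and the orthogonal projections of `ℂ²` onto the real lines
of angle between `0` and `π / 2`. The algebra `A` consists of the continuous functions `f` on `T ^ I`
with values in the two by two matrices such that `f t` lies in the double commutant of all `P (t i)`,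
`i ∈ I`. It has real rank zero. In `V(R)`, `R` regular, the classes of idempotents `e i` admit
uniform refinements: the classes `c i j` of `(1 - e j) e i R` satisfy `c i k ≤ c i j + c j k`. In
`V(A)` this fails for the classes of the projections `t ↦ P (t i)`.
-/

universe u

open Pool.Agent.H494R3.NK in
/-- There is a von Neumann regular ring `R` such that `V(R)` is not isomorphic to `V(A)` for any
C*-algebra `A` of real rank zero, and there is a C*-algebra `A` of real rank zero such that `V(A)`
is not isomorphic to `V(R)` for any von Neumann regular ring `R`. -/
theorem Pool.Agent.Results.MP_53c861_al.NeitherInclusion.result :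
    (∃ (R : Type) (_ : Ring R), (∀ x : R, ∃ y : R, x * y * x = x) ∧
      ∀ (A : Type u) [NonUnitalCStarAlgebra A], RealRankZero A → ¬ Nonempty (VV R ≃+ VV A)) ∧
    ∃ (A : Type) (_ : CStarAlgebra A), RealRankZero A ∧
      ∀ (R : Type u) [NonUnitalRing R], (∀ x : R, ∃ y : R, x * y * x = x) →
        ¬ Nonempty (VV A ≃+ VV R) :=
  ⟨Pool.Agent.H494R3.NK.main, Pool.Agent.Y78.NK.main⟩
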